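import Mathlib

/-!
# The q-analogue of Rado's theorem (MP_ca0b96_co, Q1): a positive answer

Let `M` be a `q`-matroid on a finite-dimensional vector space `V` (over an arbitrary field).

* For every subspace `X` some basis `B` of `M` is as transversal to `X` as the dimensions allow:
  `dim (B ∩ X) = max (0, r(M) - codim X)`; so this is the bar nullity of `X`.
* Therefore the condition of Q1 says that `n ≤ r(M)` and that the `q`-Hall condition
  `dim X(J) + |J| ≤ dim V` holds for all `J`.
* If it holds, enlarge the `X i` to hyperplanes `Y i` with the `q`-Hall condition; some subspace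
  `T` of dimension `n`, independent in `M`, avoids the intersection of the `Y i`; it is a
  `q`-transversal because the determinant of the functionals defining the `Y i` on a vector basis
  of `T` does not vanish.
-/

set_option autoImplicit false

namespace Pool.Agent.Results.MP_ca0b96_co.QRado

open Module Submodule

/-- A `q`-matroid on `V`, given by its rank function on the subspaces of `V`. -/
structure QMatroid (K V : Type*) [Field K] [AddCommGroup V] [Module K V] where
  /-- the rank function -/
  r : Submodule K V → ℕ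
  le_dim : ∀ A, r A ≤ finrank K A
  mono : ∀ A B, A ≤ B → r A ≤ r B
  submod : ∀ A B, r (A ⊔ B) + r (A ⊓ B) ≤ r A + r B

variable {K V : Type*} [Field K] [AddCommGroup V] [Module K V]

/-- independent subspaces of a `q`-matroid -/
def QMatroid.Indep (M : QMatroid K V) (A : Submodule K V) : Prop := M.r A = finrank K A

/-- bases of a `q`-matroid: maximal independent subspaces -/
def QMatroid.IsBasis (M : QMatroid K V) (B : Submodule K V) : Prop :=
  M.Indep B ∧ ∀ A, M.Indep A → B ≤ A → A = B

/-- the bar nullity: the least dimension of `B ∩ X`, over the bases `B` -/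
noncomputable def QMatroid.barNullity (M : QMatroid K V) (X : Submodule K V) : ℕ :=
  sInf {d | ∃ B, M.IsBasis B ∧ d = finrank K (B ⊓ X : Submodule K V)}

/-- `T` is a `q`-transversal of the family `X`: `dim T = n`, and every vector basis of `T` can be
listed as `b 1, ..., b n` with `b i ∉ X i` for all `i`. -/
def IsQTransversal {n : ℕ} (X : Fin n → Submodule K V) (T : Submodule K V) : Prop :=
  finrank K T = n ∧ ∀ b : Fin n → V, LinearIndependent K b → span K (Set.range b) = T →
    ∃ σ : Equiv.Perm (Fin n), ∀ i, b (σ i) ∉ X i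

section matroid

variable [FiniteDimensional K V] (M : QMatroid K V)

/-- closure argument: if adding any vector outside a proper subspace does not change the rank,
then the rank is the full rank -/
lemma rank_eq_top (Y W : Submodule K V) (hW : W ≠ ⊤)
    (h : ∀ x, x ∉ W → M.r (Y ⊔ span K {x}) = M.r Y) : M.r ⊤ = M.r Y := by
  -- a maximal subspace above `Y` of the same rank
  have hex : ∃ Z : Submodule K V, (Y ≤ Z ∧ M.r Z = M.r Y) ∧
      ∀ Z', (Y ≤ Z' ∧ M.r Z' = M.r Y) → Z ≤ Z' → Z' = Z := by
    obtain ⟨Z, hZ, hmax⟩ := WellFounded.has_min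
      (wellFounded_gt (α := Submodule K V)) {Z | Y ≤ Z ∧ M.r Z = M.r Y} ⟨Y, le_rfl, rfl⟩
    refine ⟨Z, hZ, fun Z' hZ' hle => ?_⟩
    by_contra hne
    exact hmax Z' hZ' (lt_of_le_of_ne hle (Ne.symm hne))
  obtain ⟨Z, ⟨hYZ, hrZ⟩, hmax⟩ := hex
  have h1 : ∀ x, x ∉ W → x ∈ Z := by
    intro x hx
    have h2 := M.submod Z (Y ⊔ span K {x})
    have h3 : M.r Y ≤ M.r (Z ⊓ (Y ⊔ span K {x})) := M.mono _ _ (le_inf hYZ le_sup_left)
    rw [h x hx, hrZ] at h2
    have h4 : M.r (Z ⊔ (Y ⊔ span K {x})) = M.r Y :=
      le_antisymm (by omega) (M.mono _ _ (le_trans hYZ le_sup_left))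
    have h5 := hmax _ ⟨le_trans hYZ le_sup_left, h4⟩ le_sup_left
    rw [← h5]
    exact le_sup_right (a := Z) (le_sup_right (a := Y) (mem_span_singleton_self x))
  have h2 : Z = ⊤ := by
    rw [eq_top_iff]
    intro x _
    by_cases hx : x ∈ W
    · obtain ⟨y, hy⟩ : ∃ y, y ∉ W := by
        by_contra hcon
        push Not at hcon
        exact hW (eq_top_iff.mpr fun y _ => hcon y)
      have h3 : x + y ∉ W := fun h4 => hy (by simpa using W.sub_mem h4 hx)
      have h4 := Z.sub_mem (h1 _ h3) (h1 _ hy)
      simpa using h4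
    · exact h1 x hx
  rw [← h2, hrZ]

lemma finrank_sup_span (A : Submodule K V) (x : V) :
    finrank K (A ⊔ span K {x} : Submodule K V) ≤ finrank K A + 1 := by
  have h1 := Submodule.finrank_sup_add_finrank_inf_eq A (span K {x})
  have h2 : finrank K (span K {x}) ≤ 1 := by
    have := finrank_span_le_card (R := K) ({x} : Set V)
    simpa using this
  omega

/-- if the rank grows then independence is kept -/
lemma indep_sup {A : Submodule K V} (hA : M.Indep A) {x : V}
    (hx : M.r (A ⊔ span K {x}) ≠ M.r A) :
    M.Indep (A ⊔ span K {x}) ∧ finrank K (A ⊔ span K {x} : Submodule K V) = finrank K A + 1 := by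
  have h1 := finrank_sup_span A x
  have h2 := M.le_dim (A ⊔ span K {x})
  have h3 := M.mono A (A ⊔ span K {x}) le_sup_left
  unfold QMatroid.Indep at *
  omega

/-- every independent subspace lies in a basis -/
lemma exists_basis {A : Submodule K V} (hA : M.Indep A) : ∃ B, M.IsBasis B ∧ A ≤ B := by
  obtain ⟨Z, hZ, hmax⟩ := WellFounded.has_min
    (wellFounded_gt (α := Submodule K V)) {Z | A ≤ Z ∧ M.Indep Z} ⟨A, le_rfl, hA⟩
  refine ⟨Z, ⟨hZ.2, fun Z' hZ' hle => ?_⟩, hZ.1⟩
  by_contra hne
  exact hmax Z' ⟨hZ.1.trans hle, hZ'⟩ (lt_of_le_of_ne hle (Ne.symm hne))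

/-- the bases have the dimension `r(V)` -/
lemma basis_finrank {B : Submodule K V} (hB : M.IsBasis B) : finrank K B = M.r ⊤ := by
  have h0 : finrank K B = M.r B := hB.1.symm
  rw [h0]
  by_cases htop : (⊥ : Submodule K V) = ⊤
  · have h1 : B = ⊤ := by
      rw [eq_top_iff, ← htop]; exact bot_le
    rw [h1]
  · symm
    apply rank_eq_top M B ⊥ htop
    intro x hx
    by_contra hne
    obtain ⟨h1, h2⟩ := indep_sup M hB.1 hne
    have h3 := hB.2 _ h1 le_sup_left
    rw [h3] at h2
    omega

omit [FiniteDimensional K V] in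
lemma rank_bot : M.r ⊥ = 0 := by
  have := M.le_dim ⊥
  rw [finrank_bot] at this
  omega

/-- **Key lemma.** For a subspace `X` and `k ≤ r(M)`, `k ≤ codim X`, some independent subspace of
dimension `k` avoids `X`. -/
lemma exists_avoid (X : Submodule K V) : ∀ k : ℕ, k ≤ M.r ⊤ → finrank K X + k ≤ finrank K V →
    ∃ T, M.Indep T ∧ finrank K T = k ∧ T ⊓ X = ⊥ := by
  intro k
  induction k with
  | zero =>
    intro _ _
    exact ⟨⊥, by unfold QMatroid.Indep; rw [rank_bot, finrank_bot], finrank_bot K V,
      bot_inf_eq _⟩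
  | succ k ih =>
    intro h1 h2
    obtain ⟨T, hT, hk, hX⟩ := ih (by omega) (by omega)
    have h3 : T ⊔ X ≠ ⊤ := by
      intro h4
      have h5 := Submodule.finrank_sup_add_finrank_inf_eq T X
      rw [h4, hX, finrank_top, finrank_bot] at h5
      omega
    obtain ⟨x, hx, hne⟩ : ∃ x, x ∉ T ⊔ X ∧ M.r (T ⊔ span K {x}) ≠ M.r T := by
      by_contra hcon
      push Not at hcon
      have h4 := rank_eq_top M T (T ⊔ X) h3 hcon
      have h5 : M.r T = finrank K T := hT
      omega
    obtain ⟨h4, h5⟩ := indep_sup M hT hne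
    refine ⟨T ⊔ span K {x}, h4, by omega, ?_⟩
    rw [eq_bot_iff]
    rintro y ⟨hy1, hy2⟩
    rw [SetLike.mem_coe, mem_sup] at hy1
    obtain ⟨t, ht, z, hz, rfl⟩ := hy1
    obtain ⟨c, rfl⟩ := mem_span_singleton.mp hz
    by_cases hc : c = 0
    · subst hc
      rw [zero_smul, add_zero] at hy2 ⊢
      rw [← hX]
      exact ⟨ht, hy2⟩
    · exfalso
      apply hx
      have h6 : c • x ∈ T ⊔ X := by
        have h7 := (T ⊔ X).sub_mem (mem_sup_right (S := T) hy2) (mem_sup_left (T := X) ht)
        simpa using h7
      have h7 := (T ⊔ X).smul_mem c⁻¹ h6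
      rwa [smul_smul, inv_mul_cancel₀ hc, one_smul] at h7

/-- **The bar nullity** of a subspace is `max (0, r(M) - codim X)`. -/
theorem barNullity_eq (X : Submodule K V) :
    M.barNullity X = M.r ⊤ + finrank K X - finrank K V := by
  have hle : finrank K X ≤ finrank K V := Submodule.finrank_le X
  apply le_antisymm
  · by_cases h : M.r ⊤ + finrank K X ≤ finrank K V
    · obtain ⟨T, hT, hk, hX⟩ := exists_avoid M X (M.r ⊤) le_rfl (by omega)
      obtain ⟨B, hB, hTB⟩ := exists_basis M hT
      have h1 := basis_finrank M hB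
      have h2 : T = B := eq_of_le_of_finrank_eq hTB (by omega)
      have h3 : M.barNullity X ≤ finrank K (B ⊓ X : Submodule K V) := Nat.sInf_le ⟨B, hB, rfl⟩
      rw [← h2, hX, finrank_bot] at h3
      omega
    · obtain ⟨T, hT, hk, hX⟩ := exists_avoid M X (finrank K V - finrank K X) (by omega) (by omega)
      obtain ⟨B, hB, hTB⟩ := exists_basis M hT
      have h1 := basis_finrank M hB
      have h0 : M.barNullity X ≤ finrank K (B ⊓ X : Submodule K V) := Nat.sInf_le ⟨B, hB, rfl⟩
      have h2 := Submodule.finrank_sup_add_finrank_inf_eq T (B ⊓ X)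
      have h3 : T ⊓ (B ⊓ X) = ⊥ := by
        rw [eq_bot_iff, ← hX]
        exact le_inf inf_le_left (inf_le_right.trans inf_le_right)
      rw [h3, finrank_bot] at h2
      have h4 : finrank K (T ⊔ (B ⊓ X) : Submodule K V) ≤ finrank K B :=
        Submodule.finrank_mono (sup_le hTB inf_le_left)
      omega
  · apply le_csInf
    · obtain ⟨B, hB, -⟩ := exists_basis M (A := ⊥) (by
        unfold QMatroid.Indep; rw [rank_bot, finrank_bot])
      exact ⟨_, B, hB, rfl⟩
    · rintro d ⟨B, hB, rfl⟩
      have h1 := basis_finrank M hB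
      have h2 := Submodule.finrank_sup_add_finrank_inf_eq B X
      have h3 : finrank K (B ⊔ X : Submodule K V) ≤ finrank K V := Submodule.finrank_le _
      omega

end matroid

section hall

variable [FiniteDimensional K V]

/-- the `q`-Hall condition -/
def HallC {n : ℕ} (X : Fin n → Submodule K V) : Prop :=
  ∀ J : Finset (Fin n), finrank K (⨅ j ∈ J, X j : Submodule K V) + J.card ≤ finrank K V

omit [FiniteDimensional K V] in
lemma inf_update {n : ℕ} (X : Fin n → Submodule K V) (i : Fin n) (Z : Submodule K V)
    (J : Finset (Fin n)) (hJ : i ∈ J) :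
    (⨅ j ∈ J, Function.update X i Z j) = Z ⊓ ⨅ j ∈ J.erase i, X j := by
  apply le_antisymm
  · refine le_inf ?_ ?_
    · refine (iInf₂_le i hJ).trans ?_
      rw [Function.update_self]
    · refine le_iInf₂ fun j hj => ?_
      rw [Finset.mem_erase] at hj
      refine (iInf₂_le j hj.2).trans ?_
      rw [Function.update_of_ne hj.1]
  · refine le_iInf₂ fun j hj => ?_
    by_cases h : j = i
    · subst h
      rw [Function.update_self]
      exact inf_le_left
    · rw [Function.update_of_ne h]
      exact inf_le_right.trans (iInf₂_le j (Finset.mem_erase.mpr ⟨h, hj⟩))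

omit [FiniteDimensional K V] in
lemma inf_update' {n : ℕ} (X : Fin n → Submodule K V) (i : Fin n) (Z : Submodule K V)
    (J : Finset (Fin n)) (hJ : i ∉ J) :
    (⨅ j ∈ J, Function.update X i Z j) = ⨅ j ∈ J, X j := by
  refine iInf_congr fun j => iInf_congr fun hj => ?_
  rw [Function.update_of_ne]
  rintro rfl
  exact hJ hj

/-- enlarging the members of a family with the `q`-Hall condition to hyperplanes -/
lemma enlarge {n : ℕ} : ∀ (s : ℕ) (X : Fin n → Submodule K V),
    ∑ i, (finrank K V - finrank K (X i)) = s → HallC X →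
    ∃ Y : Fin n → Submodule K V, (∀ i, X i ≤ Y i) ∧ HallC Y ∧
      ∀ i, finrank K (Y i) + 1 = finrank K V := by
  intro s
  induction s using Nat.strong_induction_on with
  | _ s ih =>
    intro X hs hX
    by_cases hall : ∀ i, finrank K (X i) + 1 = finrank K V
    · exact ⟨X, fun _ => le_rfl, hX, hall⟩
    push Not at hall
    obtain ⟨i, hi⟩ := hall
    have hi1 : finrank K (X i) + 1 < finrank K V := by
      have h1 := hX {i}
      have h2 : (⨅ j ∈ ({i} : Finset (Fin n)), X j) = X i := by simp
      rw [h2, Finset.card_singleton] at h1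
      omega
    -- two vectors independent modulo `X i`
    obtain ⟨x, hx⟩ : ∃ x, x ∉ X i := by
      by_contra hcon
      push Not at hcon
      have h1 : X i = ⊤ := eq_top_iff.mpr fun y _ => hcon y
      rw [h1, finrank_top] at hi1
      omega
    obtain ⟨y, hy⟩ : ∃ y, y ∉ X i ⊔ span K {x} := by
      by_contra hcon
      push Not at hcon
      have h1 : X i ⊔ span K {x} = ⊤ := eq_top_iff.mpr fun y _ => hcon y
      have h2 := finrank_sup_span (X i) x
      rw [h1, finrank_top] at h2
      omega
    have hxy : (X i ⊔ span K {x}) ⊓ (X i ⊔ span K {y}) = X i := by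
      apply le_antisymm
      · rintro z ⟨hz1, hz2⟩
        rw [SetLike.mem_coe, mem_sup] at hz1 hz2
        obtain ⟨a, ha, p, hp, rfl⟩ := hz1
        obtain ⟨b, hb, q, hq, hab⟩ := hz2
        obtain ⟨c, rfl⟩ := mem_span_singleton.mp hp
        obtain ⟨d, rfl⟩ := mem_span_singleton.mp hq
        by_cases hd : d = 0
        · subst hd
          rw [zero_smul, add_zero] at hab
          rw [← hab]; exact hb
        · exfalso
          apply hy
          have h1 : d • y ∈ X i ⊔ span K {x} := by
            have h2 : d • y = (a - b) + c • x := by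
              have : b + d • y = a + c • x := hab
              rw [eq_sub_of_add_eq' this]; abel
            rw [h2]
            exact add_mem (mem_sup_left (sub_mem ha hb))
              (mem_sup_right (smul_mem _ _ (mem_span_singleton_self x)))
          have h3 := (X i ⊔ span K {x}).smul_mem d⁻¹ h1
          rwa [smul_smul, inv_mul_cancel₀ hd, one_smul] at h3
      · exact le_inf le_sup_left le_sup_left
    -- one of the two enlargements keeps the condition
    have key : HallC (Function.update X i (X i ⊔ span K {x})) ∨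
        HallC (Function.update X i (X i ⊔ span K {y})) := by
      by_contra hcon
      rw [not_or] at hcon
      obtain ⟨h1, h2⟩ := hcon
      unfold HallC at h1 h2
      push Not at h1 h2
      obtain ⟨J, hJ⟩ := h1
      obtain ⟨J', hJ'⟩ := h2
      have hiJ : i ∈ J := by
        by_contra h
        rw [inf_update' X i _ J h] at hJ
        have := hX J
        omega
      have hiJ' : i ∈ J' := by
        by_contra h
        rw [inf_update' X i _ J' h] at hJ'
        have := hX J'
        omega
      rw [inf_update X i _ J hiJ] at hJ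
      rw [inf_update X i _ J' hiJ'] at hJ'
      have h3 := Submodule.finrank_sup_add_finrank_inf_eq
        ((X i ⊔ span K {x}) ⊓ ⨅ j ∈ J.erase i, X j) ((X i ⊔ span K {y}) ⊓ ⨅ j ∈ J'.erase i, X j)
      have h4 : ((X i ⊔ span K {x}) ⊓ ⨅ j ∈ J.erase i, X j) ⊓
          ((X i ⊔ span K {y}) ⊓ ⨅ j ∈ J'.erase i, X j) = ⨅ j ∈ J ∪ J', X j := by
        rw [inf_inf_inf_comm, hxy]
        apply le_antisymm
        · refine le_iInf₂ fun j hj => ?_
          by_cases h : j = i
          · subst h; exact inf_le_left
          · rw [Finset.mem_union] at hj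
            rcases hj with hj | hj
            · exact (inf_le_right.trans inf_le_left).trans
                (iInf₂_le j (Finset.mem_erase.mpr ⟨h, hj⟩))
            · exact (inf_le_right.trans inf_le_right).trans
                (iInf₂_le j (Finset.mem_erase.mpr ⟨h, hj⟩))
        · refine le_inf (iInf₂_le i (Finset.mem_union_left _ hiJ)) (le_inf ?_ ?_)
          · exact le_iInf₂ fun j hj => iInf₂_le j (Finset.mem_union_left _ (Finset.mem_of_mem_erase hj))
          · exact le_iInf₂ fun j hj => iInf₂_le j (Finset.mem_union_right _ (Finset.mem_of_mem_erase hj))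
      have h5 : ((X i ⊔ span K {x}) ⊓ ⨅ j ∈ J.erase i, X j) ⊔
          ((X i ⊔ span K {y}) ⊓ ⨅ j ∈ J'.erase i, X j) ≤ ⨅ j ∈ (J ∩ J').erase i, X j := by
        refine sup_le ?_ ?_
        · refine inf_le_right.trans (le_iInf₂ fun j hj => iInf₂_le j ?_)
          rw [Finset.mem_erase, Finset.mem_inter] at hj
          exact Finset.mem_erase.mpr ⟨hj.1, hj.2.1⟩
        · refine inf_le_right.trans (le_iInf₂ fun j hj => iInf₂_le j ?_)
          rw [Finset.mem_erase, Finset.mem_inter] at hj
          exact Finset.mem_erase.mpr ⟨hj.1, hj.2.2⟩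
      have h6 := Submodule.finrank_mono h5
      rw [h4] at h3
      have h7 := hX (J ∪ J')
      have h8 := hX ((J ∩ J').erase i)
      have h9 := Finset.card_union_add_card_inter J J'
      have h10 := Finset.card_erase_add_one (Finset.mem_inter.mpr ⟨hiJ, hiJ'⟩)
      omega
    have hdec : ∀ z : V, z ∉ X i → ∑ j, (finrank K V -
        finrank K (Function.update X i (X i ⊔ span K {z}) j)) < s := by
      intro z hz
      rw [← hs]
      apply Finset.sum_lt_sum
      · intro j _
        by_cases h : j = i
        · subst h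
          rw [Function.update_self]
          have := Submodule.finrank_mono (le_sup_left : X j ≤ X j ⊔ span K {z})
          omega
        · rw [Function.update_of_ne h]
      · refine ⟨i, Finset.mem_univ _, ?_⟩
        rw [Function.update_self]
        have h1 : X i < X i ⊔ span K {z} := by
          refine lt_of_le_of_ne le_sup_left fun h => hz ?_
          rw [h]
          exact mem_sup_right (mem_span_singleton_self z)
        have h2 := Submodule.finrank_lt_finrank_of_lt h1
        omega
    have hup : ∀ z : V, ∀ j, X j ≤ Function.update X i (X i ⊔ span K {z}) j := by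
      intro z j
      by_cases h : j = i
      · subst h
        rw [Function.update_self]
        exact le_sup_left
      · rw [Function.update_of_ne h]
    rcases key with hk | hk
    · obtain ⟨Y, hY1, hY2, hY3⟩ := ih _ (hdec x hx) _ rfl hk
      exact ⟨Y, fun j => (hup x j).trans (hY1 j), hY2, hY3⟩
    · have hy' : y ∉ X i := fun h => hy (mem_sup_left h)
      obtain ⟨Y, hY1, hY2, hY3⟩ := ih _ (hdec y hy') _ rfl hk
      exact ⟨Y, fun j => (hup y j).trans (hY1 j), hY2, hY3⟩

/-- a subspace of dimension `n` which avoids the intersection of `n` hyperplanes is a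
`q`-transversal of them -/
lemma transversal_of_avoid {n : ℕ} (X Y : Fin n → Submodule K V) (hXY : ∀ i, X i ≤ Y i)
    (hY : ∀ i, finrank K (Y i) + 1 = finrank K V) (T : Submodule K V) (hT : finrank K T = n)
    (hav : T ⊓ (⨅ i, Y i) = ⊥) : IsQTransversal X T := by
  classical
  refine ⟨hT, fun b hb hspan => ?_⟩
  have hlt : ∀ i, Y i < ⊤ := by
    intro i
    rw [lt_top_iff_ne_top]
    intro h
    have := hY i
    rw [h, finrank_top] at this
    omega
  choose f hf0 hf using fun i => Submodule.exists_le_ker_of_lt_top (Y i) (hlt i)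
  have hker : ∀ i, LinearMap.ker (f i) = Y i := by
    intro i
    symm
    apply eq_of_le_of_finrank_le (hf i)
    have h1 : LinearMap.ker (f i) < ⊤ := by
      rw [lt_top_iff_ne_top]
      intro h
      exact hf0 i (LinearMap.ker_eq_top.mp h)
    have h2 := Submodule.finrank_lt_finrank_of_lt h1
    rw [finrank_top] at h2
    have := hY i
    omega
  have hdet : (Matrix.of fun i k => f i (b k) : Matrix (Fin n) (Fin n) K).det ≠ 0 := by
    intro h0
    obtain ⟨c, hc0, hc⟩ := Matrix.exists_mulVec_eq_zero_iff.mpr h0
    have h1 : ∑ k, c k • b k ∈ T ⊓ ⨅ i, Y i := by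
      refine ⟨?_, ?_⟩
      · rw [← hspan]
        exact sum_mem fun k _ => smul_mem _ _ (subset_span ⟨k, rfl⟩)
      · rw [SetLike.mem_coe, mem_iInf]
        intro i
        rw [← hker i, LinearMap.mem_ker, map_sum]
        have h2 := congrFun hc i
        rw [Matrix.mulVec, dotProduct, Pi.zero_apply] at h2
        rw [← h2]
        apply Finset.sum_congr rfl
        intro k _
        rw [map_smul, smul_eq_mul, Matrix.of_apply, mul_comm]
    rw [hav, mem_bot] at h1
    apply hc0
    funext k
    exact (Fintype.linearIndependent_iff.mp hb) c h1 k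
  rw [Matrix.det_apply] at hdet
  obtain ⟨σ, -, hσ⟩ := Finset.exists_ne_zero_of_sum_ne_zero hdet
  have h1 : ∏ i, (Matrix.of fun i k => f i (b k) : Matrix (Fin n) (Fin n) K) (σ i) i ≠ 0 := by
    intro h
    rw [h, smul_zero] at hσ
    exact hσ rfl
  rw [Finset.prod_ne_zero_iff] at h1
  refine ⟨σ⁻¹, fun i hi => ?_⟩
  have h2 := h1 (σ⁻¹ i) (Finset.mem_univ _)
  apply h2
  rw [Matrix.of_apply]
  have h3 : σ (σ⁻¹ i) = i := by simp
  rw [h3]
  have h4 := hf i (hXY i hi)
  exact h4

/-- a `q`-transversal meets the intersections in small subspaces -/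
lemma small_of_transversal {n : ℕ} (X : Fin n → Submodule K V) (T : Submodule K V)
    (hT : IsQTransversal X T) (J : Finset (Fin n)) :
    finrank K (T ⊓ (⨅ j ∈ J, X j) : Submodule K V) + J.card ≤ n := by
  classical
  obtain ⟨hn, hb⟩ := hT
  set S : Submodule K V := T ⊓ (⨅ j ∈ J, X j) with hS
  -- a vector basis of `T` which contains a basis of `S`
  obtain ⟨C, hC⟩ := Submodule.exists_isCompl (S.comap T.subtype)
  have hd : finrank K (S.comap T.subtype) = finrank K S :=
    (Submodule.comapSubtypeEquivOfLe (p := S) (q := T) inf_le_left).finrank_eq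
  have hde : finrank K (S.comap T.subtype) + finrank K C = n := by
    rw [Submodule.finrank_add_eq_of_isCompl hC, hn]
  let B : Basis (Fin (finrank K (S.comap T.subtype)) ⊕ Fin (finrank K C)) K T :=
    ((finBasis K (S.comap T.subtype)).prod (finBasis K C)).map
      (Submodule.prodEquivOfIsCompl _ _ hC)
  let e0 : Fin (finrank K (S.comap T.subtype)) ⊕ Fin (finrank K C) ≃ Fin n :=
    finSumFinEquiv.trans (finCongr hde)
  let B' : Basis (Fin n) K T := B.reindex e0
  have hB' : ∀ l, B' (e0 (Sum.inl l)) = ((finBasis K (S.comap T.subtype) l : S.comap T.subtype) : T) := by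
    intro l
    simp [B', B]
  obtain ⟨σ, hσ⟩ := hb (fun k => (B' k : V))
    (by
      have := B'.linearIndependent.map' T.subtype (Submodule.ker_subtype T)
      exact this)
    (by
      have h1 : Set.range (fun k => (B' k : V)) = T.subtype '' Set.range B' := by
        rw [← Set.range_comp]; rfl
      rw [h1, ← Submodule.map_span, B'.span_eq, Submodule.map_top, Submodule.range_subtype])
  have hdisj : Disjoint (J.image σ)
      (Finset.univ.image fun l : Fin (finrank K (S.comap T.subtype)) => e0 (Sum.inl l)) := by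
    rw [Finset.disjoint_left]
    intro k hk hk'
    obtain ⟨j, hj, rfl⟩ := Finset.mem_image.mp hk
    obtain ⟨l, -, hl⟩ := Finset.mem_image.mp hk'
    apply hσ j
    rw [← hl]
    show ((B' (e0 (Sum.inl l)) : T) : V) ∈ X j
    rw [hB' l]
    have h1 := (finBasis K (S.comap T.subtype) l).2
    rw [mem_comap] at h1
    have h2 : ((finBasis K (S.comap T.subtype) l : S.comap T.subtype) : V) ∈ S := h1
    have h3 : ((finBasis K (S.comap T.subtype) l : S.comap T.subtype) : V) ∈ ⨅ j ∈ J, X j := by
      have h4 : S ≤ ⨅ j ∈ J, X j := by rw [hS]; exact inf_le_right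
      exact h4 h2
    have h5 : (⨅ j ∈ J, X j) ≤ X j := iInf₂_le j hj
    exact h5 h3
  have h1 := Finset.card_union_of_disjoint hdisj
  rw [Finset.card_image_of_injective _ σ.injective, Finset.card_image_of_injective _
    (fun a b h => Sum.inl_injective (e0.injective h)), Finset.card_univ, Fintype.card_fin] at h1
  have h2 := Finset.card_le_univ (J.image σ ∪ (Finset.univ.image
    fun l : Fin (finrank K (S.comap T.subtype)) => e0 (Sum.inl l)))
  rw [Fintype.card_fin] at h2
  omega

end hall

/-- **A `q`-analogue of Rado's theorem.** Let `M` be a `q`-matroid on a finite-dimensional vector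
space `V` over an arbitrary field (in particular over `𝔽_q`) and let `X` be a family of `n`
subspaces, `X(J) = ⋂_{j ∈ J} X_j`. Then `X` has a `q`-transversal which is independent in `M` if
and only if `n̄(X(J)) + |J| ≤ n̄(V)` for all `J`. Moreover the bar nullity of every subspace `W` is
`n̄(W) = max (0, r(V) + dim W - dim V)`, so that the condition says: `n ≤ r(V)` and
`dim X(J) + |J| ≤ dim V` for all `J`. -/
theorem result (K V : Type*) [Field K] [AddCommGroup V] [Module K V] [FiniteDimensional K V]
    (M : QMatroid K V) :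
    (∀ W : Submodule K V, M.barNullity W = M.r ⊤ + finrank K W - finrank K V) ∧
    ∀ (n : ℕ) (X : Fin n → Submodule K V),
      ((∃ T, IsQTransversal X T ∧ M.Indep T) ↔
        ∀ J : Finset (Fin n), M.barNullity (⨅ j ∈ J, X j) + J.card ≤ M.barNullity ⊤) ∧
      ((∃ T, IsQTransversal X T ∧ M.Indep T) ↔
        n ≤ M.r ⊤ ∧ ∀ J : Finset (Fin n),
          finrank K (⨅ j ∈ J, X j : Submodule K V) + J.card ≤ finrank K V) := by
  refine ⟨barNullity_eq M, fun n X => ?_⟩
  have hrV : M.r ⊤ ≤ finrank K V := by
    have := M.le_dim ⊤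
    rwa [finrank_top] at this
  have hsecond : (∃ T, IsQTransversal X T ∧ M.Indep T) ↔
        n ≤ M.r ⊤ ∧ ∀ J : Finset (Fin n),
          finrank K (⨅ j ∈ J, X j : Submodule K V) + J.card ≤ finrank K V := by
    constructor
    · rintro ⟨T, hT, hi⟩
      have h0 : M.r T = finrank K T := hi
      have h1 := M.mono T ⊤ le_top
      refine ⟨by have := hT.1; omega, fun J => ?_⟩
      have h2 := small_of_transversal X T hT J
      have h3 := Submodule.finrank_sup_add_finrank_inf_eq T (⨅ j ∈ J, X j)
      have h4 : finrank K (T ⊔ (⨅ j ∈ J, X j) : Submodule K V) ≤ finrank K V :=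
        Submodule.finrank_le _
      have := hT.1
      omega
    · rintro ⟨hn, hH⟩
      obtain ⟨Y, hXY, hY, hYc⟩ := enlarge _ X rfl hH
      have h1 := hY Finset.univ
      have h2 : (⨅ j ∈ (Finset.univ : Finset (Fin n)), Y j) = ⨅ j, Y j := by simp
      rw [h2, Finset.card_univ, Fintype.card_fin] at h1
      obtain ⟨T, hT, hk, hav⟩ := exists_avoid M (⨅ j, Y j) n hn h1
      exact ⟨T, transversal_of_avoid X Y hXY hYc T hk hav, hT⟩
  refine ⟨hsecond.trans ⟨?_, ?_⟩, hsecond⟩
  · rintro ⟨hn, hH⟩ J
    rw [barNullity_eq, barNullity_eq, finrank_top]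
    have h1 := hH J
    have h2 := Finset.card_le_univ J
    rw [Fintype.card_fin] at h2
    omega
  · intro h
    have h1 := h Finset.univ
    rw [barNullity_eq, barNullity_eq, finrank_top, Finset.card_univ, Fintype.card_fin] at h1
    refine ⟨by omega, fun J => ?_⟩
    have h2 := h J
    rw [barNullity_eq, barNullity_eq, finrank_top] at h2
    omega

end Pool.Agent.Results.MP_ca0b96_co.QRado
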